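import Pool.Agent.Helper34.FF.Goals1

namespace Pool.Agent.Helper93.FF

open Finset
open Pool.Agent.Helper34.FF

lemma isW_cut {V : Type} {G : SimpleGraph V} {k : ℕ} {a : ℕ → V} {x y : V} (h : IsW G k a x y)
    {s s' : ℕ} (hs : s < s') (hs' : s' ≤ k) (he : a s = a s') :
    ∃ b, IsW G (k - (s' - s)) b x y := by
  refine ⟨fun u => if u ≤ s then a u else a (u + (s' - s)), ?_, ?_, ?_⟩
  · simp only [Nat.zero_le, if_true]
    exact h.1
  · by_cases hk : k - (s' - s) ≤ s
    · have h1 : k = s' := by omega
      have h2 : k - (s' - s) = s := by omega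
      simp only [hk, if_true]
      rw [h2, he, ← h1]
      exact h.2.1
    · simp only [hk, if_false]
      have h2 : k - (s' - s) + (s' - s) = k := by omega
      rw [h2]
      exact h.2.1
  · intro i hi
    by_cases h1 : i + 1 ≤ s
    · have h2 : i ≤ s := by omega
      simp only [h1, h2, if_true]
      exact h.2.2 i (by omega)
    · by_cases h2 : i ≤ s
      · have h3 : i = s := by omega
        simp only [h1, h2, if_true, if_false]
        rw [h3, he]
        have h4 : s + 1 + (s' - s) = s' + 1 := by omega
        rw [h4]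
        exact h.2.2 s' (by omega)
      · simp only [h1, h2, if_false]
        have h4 : i + 1 + (s' - s) = i + (s' - s) + 1 := by omega
        rw [h4]
        exact h.2.2 _ (by omega)

lemma isW_take {V : Type} {G : SimpleGraph V} {k : ℕ} {a : ℕ → V} {x y : V} (h : IsW G k a x y)
    {t : ℕ} (ht : t ≤ k) : IsW G t a x (a t) :=
  ⟨h.1, rfl, fun i hi => h.2.2 i (by omega)⟩

lemma isW_drop {V : Type} {G : SimpleGraph V} {k : ℕ} {a : ℕ → V} {x y : V} (h : IsW G k a x y)
    {t : ℕ} (ht : t ≤ k) : IsW G (k - t) (fun u => a (t + u)) (a t) y := by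
  refine ⟨rfl, ?_, ?_⟩
  · have : t + (k - t) = k := by omega
    simp only [this]
    exact h.2.1
  · intro i hi
    exact h.2.2 (t + i) (by omega)

lemma isW_rev {V : Type} {G : SimpleGraph V} {k : ℕ} {a : ℕ → V} {x y : V} (h : IsW G k a x y) :
    IsW G k (fun u => a (k - u)) y x := by
  refine ⟨?_, ?_, ?_⟩
  · simp only [Nat.sub_zero]
    exact h.2.1
  · simp only [Nat.sub_self]
    exact h.1
  · intro i hi
    have h1 := h.2.2 (k - (i + 1)) (by omega)
    have h2 : k - (i + 1) + 1 = k - i := by omega
    rw [h2] at h1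
    exact h1.symm

/-- Distances between vertices of a cycle are determined by the chords (integer positions). -/
theorem decompZ {V : Type} (H : SimpleGraph V) (l : ℕ) (c : ℤ → V) (hl : 1 ≤ l)
    (hper : ∀ i : ℤ, c (i + l) = c i)
    (h0 : ∀ (i j : ℤ) (k : ℕ) (a : ℕ → V), i < j → j < i + l → IsW H k a (c i) (c j) → Inj k a →
      (∀ t, 0 < t → t < k → ∀ q, a t ≠ c q) → min (j - i) (l - (j - i)) ≤ (k : ℤ)) :
    ∀ k : ℕ, ∀ (i j : ℤ) (a : ℕ → V), i ≤ j → j ≤ i + l → IsW H k a (c i) (c j) →
      min (j - i) (l - (j - i)) ≤ (k : ℤ) := by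
  have hp : Function.Periodic c (l : ℤ) := hper
  intro k
  induction k using Nat.strong_induction_on with
  | _ k ih =>
    intro i j a hij hjl hw
    rcases hij.eq_or_lt with he | hlt
    · omega
    rcases hjl.eq_or_lt with he | hlt2
    · omega
    by_cases hinj : Inj k a
    · by_cases hin : ∀ t, 0 < t → t < k → ∀ q, a t ≠ c q
      · exact h0 i j k a hlt hlt2 hw hinj hin
      · push Not at hin
        obtain ⟨t, ht0, htk, q0, hq0⟩ := hin
        have hlpos : (0:ℤ) < l := by exact_mod_cast hl
        obtain ⟨q, hq1, hq2, hq3⟩ : ∃ q : ℤ, i ≤ q ∧ q < i + l ∧ c q = a t := by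
          refine ⟨i + (q0 - i) % l, ?_, ?_, ?_⟩
          · have := Int.emod_nonneg (q0 - i) hlpos.ne'
            omega
          · have := Int.emod_lt_of_pos (q0 - i) hlpos
            omega
          · rw [hq0]
            have h1 := (hp.int_mul ((q0 - i) / l)) (i + (q0 - i) % l)
            rw [← h1]
            congr 1
            have := Int.emod_add_mul_ediv (q0 - i) l
            push_cast
            linarith
        have hw1 : IsW H t a (c i) (c q) := by
          rw [hq3]
          exact isW_take hw htk.le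
        have e1 := ih t htk i q a hq1 hq2.le hw1
        have hw2 : IsW H (k - t) (fun u => a (t + u)) (c q) (c j) := by
          rw [hq3]
          exact isW_drop hw htk.le
        rcases le_or_gt q j with hqj | hqj
        · have e2 := ih (k - t) (by omega) q j _ hqj (by omega) hw2
          omega
        · have e2 := ih (k - t) (by omega) j q _ hqj.le (by omega) (isW_rev hw2)
          omega
    · unfold Inj at hinj
      push Not at hinj
      obtain ⟨s, hs, s', hs', he, hne⟩ := hinj
      rcases lt_or_gt_of_ne hne with h | h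
      · obtain ⟨b, hb⟩ := isW_cut hw h hs' he
        have := ih (k - (s' - s)) (by omega) i j b hij hjl hb
        omega
      · obtain ⟨b, hb⟩ := isW_cut hw h hs he.symm
        have := ih (k - (s - s')) (by omega) i j b hij hjl hb
        omega

/-- Every integer pair can be shifted by a multiple of the period to a pair of naturals. -/
lemma shiftNat (l : ℕ) (hl : 1 ≤ l) (i j : ℤ) (hij : i ≤ j) :
    ∃ (i' j' : ℕ) (n : ℤ), (i' : ℤ) = i + n * l ∧ (j' : ℤ) = j + n * l := by
  have h1 : (0:ℤ) ≤ i + |i| * l := by
    have hl' : (1:ℤ) ≤ l := by exact_mod_cast hl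
    have h2 : |i| * 1 ≤ |i| * l := by
      apply mul_le_mul_of_nonneg_left hl' (abs_nonneg _)
    have h3 := neg_abs_le i
    linarith
  have h2 : (0:ℤ) ≤ j + |i| * l := by linarith
  exact ⟨(i + |i| * l).toNat, (j + |i| * l).toNat, |i|, Int.toNat_of_nonneg h1,
    Int.toNat_of_nonneg h2⟩

theorem pf_StmtDecomp : Pool.Agent.Helper34.FF.StmtDecomp := by
  intro V H l c hl hper _ h0
  have hp : Function.Periodic c (l : ℤ) := hper
  have h0Z : ∀ (i j : ℤ) (k : ℕ) (a : ℕ → V), i < j → j < i + l → IsW H k a (c i) (c j) →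
      Inj k a → (∀ t, 0 < t → t < k → ∀ q, a t ≠ c q) →
      min (j - i) (l - (j - i)) ≤ (k : ℤ) := by
    intro i j k a hij hjl hw hinj hin
    obtain ⟨i', j', n, hi, hj⟩ := shiftNat l hl i j hij.le
    have ci : c i' = c i := by rw [hi]; exact (hp.int_mul n) i
    have cj : c j' = c j := by rw [hj]; exact (hp.int_mul n) j
    have := h0 i' j' k a (by omega) (by omega) (by rw [ci, cj]; exact hw) hinj hin
    omega
  intro i j k a hij hjl hw
  have := decompZ H l c hl hper h0Z k i j a (by exact_mod_cast hij) (by exact_mod_cast hjl) hw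
  omega

end Pool.Agent.Helper93.FF
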