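import Pool.Agent.Helper1.FF2.Goals2
import Pool.Agent.Helper22.FF.StmtAlg

namespace Pool.Agent.Helper93.FF

open Finset
open Pool.Agent.Helper34.FF hiding StmtG
open Pool.Agent.Helper1.FF2
open scoped symmDiff Classical

lemma sd5 {α : Type} [DecidableEq α] (x A B C D : Finset α) :
    (x ∆ (C ∆ D)) ∆ (A ∆ (B ∆ C)) = (A ∆ x) ∆ (B ∆ D) := by
  ext e
  simp only [Finset.mem_symmDiff]
  by_cases h1 : e ∈ x <;> by_cases h2 : e ∈ A <;> by_cases h3 : e ∈ B <;>
    by_cases h4 : e ∈ C <;> by_cases h5 : e ∈ D <;> simp [h1, h2, h3, h4, h5]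

lemma bdry_empty {V F : Type} [Fintype V] [Fintype F] (T : Tri V F) :
    T.bdry (∅ : Finset F) = ∅ := by
  unfold Tri.bdry
  ext e
  simp

lemma enum_edge_ne {V F : Type} [Fintype V] [Fintype F] {T : Tri V F} {E : Finset F} {l : ℕ}
    {c : ℤ → V} (h : T.Enum E l c) {s t : ℤ} (h1 : s < t) (h2 : t < s + l) :
    s(c s, c (s + 1)) ≠ s(c t, c (t + 1)) := by
  intro he
  have h3 := h.three
  rw [Sym2.eq_iff] at he
  rcases he with ⟨e1, _⟩ | ⟨e1, e2⟩
  · have := h.inj _ _ e1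
    obtain ⟨q, hq⟩ := this
    have hl : (3:ℤ) ≤ l := by exact_mod_cast h3
    have q1 : q < 0 := by
      by_contra hc
      push Not at hc
      have : 0 ≤ (l:ℤ) * q := mul_nonneg (by omega) hc
      omega
    have q2 : -1 < q := by
      by_contra hc
      push Not at hc
      have : (l:ℤ) * q ≤ l * (-1) := mul_le_mul_of_nonneg_left hc (by omega)
      omega
    omega
  · have d1 := h.inj _ _ e1
    have d2 := h.inj _ _ e2
    have : (l:ℤ) ∣ 2 := by
      have := dvd_sub d2 d1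
      have e : s + 1 - t - (s - (t + 1)) = 2 := by ring
      rwa [e] at this
    have := Int.le_of_dvd (by norm_num) this
    omega

lemma mem_arcE_iff {V : Type} (c : ℤ → V) (i j : ℤ) (e : Sym2 V) :
    e ∈ arcE c i j ↔ ∃ t, (i ≤ t ∧ t < j) ∧ s(c t, c (t + 1)) = e := by
  unfold arcE
  simp only [mem_image, mem_Ico]

lemma arcE_succ {V F : Type} [Fintype V] [Fintype F] {T : Tri V F} {E : Finset F} {l : ℕ}
    {c : ℤ → V} (h : T.Enum E l c) {i j : ℤ} (h1 : i ≤ j) (h2 : j < i + l) :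
    arcE c i (j + 1) = arcE c i j ∆ {s(c j, c (j + 1))} := by
  have hn : s(c j, c (j + 1)) ∉ arcE c i j := by
    rw [mem_arcE_iff]
    rintro ⟨t, ⟨ht1, ht2⟩, he⟩
    exact enum_edge_ne h ht2 (by omega) he
  ext e
  rw [Finset.mem_symmDiff, Finset.mem_singleton, mem_arcE_iff, mem_arcE_iff]
  constructor
  · rintro ⟨t, ⟨ht1, ht2⟩, he⟩
    rcases (show t < j ∨ t = j by omega) with hlt | heq
    · left
      refine ⟨⟨t, ⟨ht1, hlt⟩, he⟩, ?_⟩
      rintro rfl
      exact hn ((mem_arcE_iff c i j _).2 ⟨t, ⟨ht1, hlt⟩, he⟩)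
    · right
      subst heq
      refine ⟨he.symm, ?_⟩
      rw [← he]
      intro hc
      exact hn ((mem_arcE_iff c i t _).2 hc)
  · rintro (⟨⟨t, ⟨ht1, ht2⟩, he⟩, -⟩ | ⟨he, -⟩)
    · exact ⟨t, ⟨ht1, by omega⟩, he⟩
    · exact ⟨j, ⟨h1, by omega⟩, he.symm⟩

theorem bdry_run {V F : Type} [Fintype V] [Fintype F] (T : Tri V F)
    {E : Finset F} {l : ℕ} {c : ℤ → V} {Ω : SimpleGraph V} {u : V} {P : V → ℕ → V}
    {U : ℤ → Finset F} (hE : T.Enum E l c)
    (hU : ∀ i, T.bdry (U i) = {s(c i, c (i + 1))} ∆ (tE Ω u P (c i) ∆ tE Ω u P (c (i + 1))))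
    (hdis : ∀ i j, ¬ (l : ℤ) ∣ i - j → Disjoint (U i) (U j)) (i : ℤ) (n : ℕ) :
    (n : ℤ) ≤ l → T.bdry ((Ico i (i + n)).biUnion U) =
      arcE c i (i + n) ∆ (tE Ω u P (c i) ∆ tE Ω u P (c (i + n))) := by
  have hAlg := (Pool.Agent.Helper22.FF.pf_StmtAlg V F T).1
  induction n with
  | zero =>
    intro _
    have e0 : i + ((0:ℕ):ℤ) = i := by simp
    rw [e0, symmDiff_self]
    simp only [Ico_self, biUnion_empty, bdry_empty]
    unfold arcE
    simp
  | succ n ih =>
    intro hn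
    have ih' := ih (by push_cast at hn; omega)
    have e1 : i + ((n + 1 : ℕ) : ℤ) = i + n + 1 := by push_cast; ring
    rw [e1]
    have e2 : Ico i (i + (n:ℤ) + 1) = insert (i + (n:ℤ)) (Ico i (i + (n:ℤ))) := by
      ext t
      simp only [mem_Ico, mem_insert]
      omega
    have hd : Disjoint (U (i + n)) ((Ico i (i + (n:ℤ))).biUnion U) := by
      rw [Finset.disjoint_biUnion_right]
      intro t ht
      rw [mem_Ico] at ht
      apply hdis
      intro hdv
      have := Int.le_of_dvd (by omega) hdv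
      push_cast at hn
      omega
    have e3 : (Ico i (i + (n:ℤ) + 1)).biUnion U =
        U (i + n) ∆ ((Ico i (i + (n:ℤ))).biUnion U) := by
      rw [e2, biUnion_insert]
      exact hd.symmDiff_eq_sup.symm
    rw [e3, hAlg, ih', hU, arcE_succ hE (by omega) (by push_cast at hn; omega)]
    exact sd5 _ _ _ _ _

theorem pf_StmtRun (hLca : StmtLca) : Pool.Agent.Helper1.FF2.StmtRun := by
  intro V F _ _ T hS E l c Ω u P U hE hΩ hP hreach hu hU hUE hdis i j hij hjl hrun
  have hlne : (0:ℤ) < l := by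
    have := hE.three
    omega
  obtain ⟨n, hn⟩ : ∃ n : ℕ, j = i + n := ⟨(j - i).toNat, by
    rw [Int.toNat_of_nonneg (by omega)]; ring⟩
  have hb := bdry_run T hE hU hdis i n (by omega)
  obtain ⟨a, ha1, ha2, ha3, ha4, -, -⟩ := hLca V Ω u P hP (c i) (c j) (hreach i) (hreach j)
  have hne : ∀ k, u ≠ c k := by
    intro k hk
    apply hu
    rw [hk]
    unfold Tri.Vbd
    rw [mem_filter]
    exact ⟨mem_univ _, s(c k, c (k + 1)), (hE.bd _).2 ⟨k, rfl⟩, Sym2.mem_mk_left _ _⟩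
  have hpos : ∀ k, 1 ≤ Ω.dist u (c k) := fun k => (hreach k).pos_dist_of_ne (hne k)
  have hchain : ∀ m : ℕ, (m : ℤ) ≤ n → P (c i) 1 = P (c (i + m)) 1 := by
    intro m
    induction m with
    | zero => intro _; simp
    | succ m ih =>
      intro hm
      rw [ih (by push_cast at hm; omega), hrun (i + m) (by omega) (by push_cast at hm; omega)]
      congr 2
      push_cast
      ring_nf
  refine ⟨a, ?_, ha1, ha2, ?_, ?_, ?_⟩
  · have h1 := hchain n le_rfl
    rw [← hn] at h1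
    exact (ha3 1 (hpos i) (hpos j)).1 h1
  · exact (ha3 a ha1 ha2).2 le_rfl
  · subst hn
    rw [hb, ha4]
  · rw [Finset.disjoint_biUnion_left]
    intro k _
    exact hUE k

end Pool.Agent.Helper93.FF
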